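import Pool.Agent.H37.CNR.Stmts
import Pool.Agent.H99.CND.SUB

/-! Board cnr, row WRL: the lower bound for the wreath products. -/

set_option autoImplicit false

namespace Pool.CND

open Finset

theorem WRL_pow {p : ℕ} {H : Type} [Group H] (g : Multiplicative (ZMod p) ≀ᵣ H)
    (hg : g.right = 1) (n : ℕ) : (g ^ n).right = 1 ∧ (g ^ n).left = g.left ^ n := by
  induction n with
  | zero =>
    rw [pow_zero, pow_zero]
    exact ⟨rfl, rfl⟩
  | succ n ih =>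
    rw [pow_succ]
    refine ⟨?_, ?_⟩
    · rw [RegularWreathProduct.mul_right, ih.1, hg, one_mul]
    · rw [RegularWreathProduct.mul_left, ih.1, ih.2, pow_succ]
      funext x
      rw [Pi.mul_apply, Pi.mul_apply, inv_one, one_mul]

theorem WRL_pow_p {p : ℕ} {H : Type} [Group H] (g : Multiplicative (ZMod p) ≀ᵣ H)
    (hg : g.right = 1) : g ^ p = 1 := by
  have h := WRL_pow g hg p
  apply RegularWreathProduct.ext
  · rw [h.2, RegularWreathProduct.one_left]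
    funext x
    rw [Pi.pow_apply, Pi.one_apply]
    apply Multiplicative.toAdd.injective
    rw [toAdd_pow, toAdd_one, nsmul_eq_mul, CharP.cast_eq_zero, zero_mul]
  · rw [h.1]
    rfl

/-- The inertia subgroup in the kernel. -/
def WRL_A {p : ℕ} {k L' H : Type} [Field k] [Field L'] [Algebra k L'] [Group H]
    (ρ' : (Multiplicative (ZMod p) ≀ᵣ H) →* (L' ≃ₐ[k] L')) (P' : Place k L') :
    Subgroup (Multiplicative (ZMod p) ≀ᵣ H) where
  carrier := {g | g.right = 1 ∧ Fixes P' (ρ' g)}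
  one_mem' := ⟨rfl, by rw [map_one]; exact Fixes.one⟩
  mul_mem' := by
    rintro a b ⟨ha, ha'⟩ ⟨hb, hb'⟩
    refine ⟨?_, ?_⟩
    · rw [RegularWreathProduct.mul_right, ha, hb, one_mul]
    · rw [map_mul]
      exact ha'.mul hb'
  inv_mem' := by
    rintro a ⟨ha, ha'⟩
    refine ⟨?_, ?_⟩
    · rw [RegularWreathProduct.inv_right, ha, inv_one]
    · rw [map_inv]
      exact ha'.inv

theorem WRL_A_card {p : ℕ} {k L' H : Type} [Field k] [Field L'] [Algebra k L'] [Group H]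
    [Finite H] (hp : p.Prime)
    (ρ' : (Multiplicative (ZMod p) ≀ᵣ H) →* (L' ≃ₐ[k] L')) (P' : Place k L') :
    ∃ a : ℕ, Nat.card (WRL_A ρ' P') = p ^ a := by
  have : Fact p.Prime := ⟨hp⟩
  have h : IsPGroup p (WRL_A ρ' P') := by
    intro g
    refine ⟨1, ?_⟩
    apply Subtype.ext
    rw [pow_one]
    exact WRL_pow_p _ g.2.1
  exact IsPGroup.iff_card.1 h

/-- All numbers `(n + S) / e` are conductors of the wreath product. -/
theorem WRL_cond (hWLY : S_WLY) (hWGX : S_WGX) (hWUN : S_WUN) (hWP4 : S_WP4) (hWUV : S_WUV)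
    (hWCC : S_WCC) (p : ℕ) (k H L : Type) [Field k] [IsAlgClosed k] [Group H] [Finite H]
    [Field L] [Algebra k L] (ρ : H →* (L ≃ₐ[k] L)) (t : L) (P : Place k L)
    (hp : p.Prime) (hchar : CharP k p) (hcov : IsCover ρ t) (hPt : P.ord t < 0) :
    ∃ (n₁ : ℕ) (S : ℤ), ∀ n : ℕ, n₁ ≤ n → ¬ p ∣ n →
      (((n : ℤ) + S : ℤ) : ℚ) / ((ram P ρ 0).ncard : ℚ) ∈
        Cond k (Multiplicative (ZMod p) ≀ᵣ H) := by
  classical
  have hpF : Fact p.Prime := ⟨hp⟩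
  have : Fintype H := Fintype.ofFinite H
  have : Fintype (Multiplicative (ZMod p) ≀ᵣ H) := Fintype.ofFinite _
  obtain ⟨n₀, hn₀⟩ := hWLY p k L H ρ t P hp hchar hcov hPt
  refine ⟨max n₀ (∑ w : H, (P.b (ρ w)).natAbs + 1),
    sm (fun w => P.b (ρ w)) {w | w ∈ ram P ρ 1 ∧ w ≠ 1}, ?_⟩
  intro n hn hpn
  obtain ⟨ℓ, hℓ0, hReg, hord, hlt, hind⟩ := hn₀ n (le_trans (le_max_left _ _) hn)
  have hbn : ∀ w : H, P.b (ρ w) < n := by
    intro w
    have h1 : (P.b (ρ w)).natAbs ≤ ∑ w : H, (P.b (ρ w)).natAbs :=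
      single_le_sum (f := fun w => (P.b (ρ w)).natAbs) (fun _ _ => Nat.zero_le _) (mem_univ w)
    have h2 := le_trans (le_max_right _ _) hn
    have h3 : P.b (ρ w) ≤ ((P.b (ρ w)).natAbs : ℤ) := Int.le_natAbs
    omega
  obtain ⟨L', _, _, j, y, ρ', hinj', hy, hj, hact, hfix⟩ := hWGX p k L H ρ ℓ hp hchar hcov.inj hind
  have hcov' : IsCover ρ' (j t) :=
    hWUN p k L L' H ρ t ℓ j y ρ' hp hchar hcov hReg hinj' hy hj hact hfix
  have hsur : Function.Surjective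
      (RegularWreathProduct.rightHom : (Multiplicative (ZMod p) ≀ᵣ H) →* H) :=
    fun h => ⟨⟨1, h⟩, rfl⟩
  obtain ⟨P', e', hWX⟩ := hWP4 k L L' (Multiplicative (ZMod p) ≀ᵣ H) H ρ ρ' j
    RegularWreathProduct.rightHom P t hcov hcov' hPt hsur hj hfix
  have hA : ∀ g, g ∈ WRL_A ρ' P' ↔ g.right = 1 ∧ Fixes P' (ρ' g) := fun g => Iff.rfl
  have hge : ∀ h : H, -(n : ℤ) ≤ P.ord (ρ h ℓ) := by
    intro h
    by_cases hf : Fixes P (ρ h)
    · rw [hf ℓ hℓ0, hord]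
    · exact (hlt h hf).le
  obtain ⟨l, hl, hU⟩ := hWUV p k L L' H ρ ℓ j y ρ' P P' e' n (WRL_A ρ' P') hp hchar hWX hy hact hA
    hℓ0 hord hpn hge
  have hC := hWCC p k L L' (Multiplicative (ZMod p) ≀ᵣ H) H ρ ρ' j RegularWreathProduct.rightHom
    P P' e' n (WRL_A ρ' P') (ramSub P ρ 0) l hp hchar hWX hA (WRL_A_card hp ρ' P') rfl hl hU
    (fun w _ _ => hbn w)
  have hcard : (ram P ρ 0).ncard = Nat.card (ramSub P ρ 0) := rfl
  rw [hcard]
  have ht0 : t ≠ 0 := by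
    rintro rfl
    exact hcov.trans isAlgebraic_zero
  refine ⟨L', _, _, ρ', j t, hcov', P', ?_, hC⟩
  rw [← hWX.ord t ht0]
  have he : (0 : ℤ) < e' := by exact_mod_cast hWX.pos
  exact mul_neg_of_pos_of_neg he hPt

theorem wrl_thm (hWLY : S_WLY) (hWGX : S_WGX) (hWUN : S_WUN) (hWP4 : S_WP4) (hWUV : S_WUV)
    (hWCC : S_WCC) (hALL : S_ALL) : S_WRL := by
  intro p k H _ _ _ _ hp hchar e he
  have hpF : Fact p.Prime := ⟨hp⟩
  obtain ⟨L, _, _, ρ, t, hcov, P, hPt, he⟩ := he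
  obtain ⟨n₁, S, hn₁⟩ := WRL_cond hWLY hWGX hWUN hWP4 hWUV hWCC p k H L ρ t P hp hchar hcov hPt
  have he0 : e ≠ 0 := by
    rw [he]
    have h1 : (1 : H) ∈ ram P ρ 0 := (ramSub P ρ 0).one_mem
    exact (Set.ncard_pos (Set.toFinite _)).2 ⟨1, h1⟩ |>.ne'
  have heq : (e : ℚ) ≠ 0 := by exact_mod_cast he0
  have key : ∀ n : ℕ, n₁ ≤ n → ¬ p ∣ n →
      (e : ℤ) ∣ (NG k (Multiplicative (ZMod p) ≀ᵣ H) : ℤ) * ((n : ℤ) + S) := by
    intro n hn hpn
    obtain ⟨z, hz⟩ := hALL p k (Multiplicative (ZMod p) ≀ᵣ H) _ hp hchar (hn₁ n hn hpn)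
    rw [← he] at hz
    refine ⟨z, ?_⟩
    have h1 : ((NG k (Multiplicative (ZMod p) ≀ᵣ H) : ℚ)) * (((n : ℤ) + S : ℤ) : ℚ) = e * z := by
      rw [← hz]
      field_simp
    exact_mod_cast h1
  have hp2 := hp.two_le
  have hle : ∀ i : ℕ, n₁ ≤ p * n₁ + i := by
    intro i
    nlinarith
  have hnd : ∀ i : ℕ, 1 ≤ i → i < p → ¬ p ∣ p * n₁ + i := by
    intro i h1 h2 h3
    have h4 : p ∣ i := (Nat.dvd_add_right (Dvd.intro _ rfl)).1 h3
    exact absurd (Nat.le_of_dvd h1 h4) (by omega)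
  by_cases h2 : p = 2
  · subst h2
    have k1 := key (2 * n₁ + 1) (hle 1) (hnd 1 le_rfl (by omega))
    have k2 := key (2 * n₁ + 3) (hle 3) (by omega)
    have k3 := dvd_sub k2 k1
    have e3 : (NG k (Multiplicative (ZMod 2) ≀ᵣ H) : ℤ) * (((2 * n₁ + 3 : ℕ) : ℤ) + S) -
        (NG k (Multiplicative (ZMod 2) ≀ᵣ H) : ℤ) * (((2 * n₁ + 1 : ℕ) : ℤ) + S) =
        ((Nat.gcd 2 2 * NG k (Multiplicative (ZMod 2) ≀ᵣ H) : ℕ) : ℤ) := by
      rw [Nat.gcd_self]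
      push_cast
      ring
    rw [e3] at k3
    exact_mod_cast k3
  · have hg : Nat.gcd 2 p = 1 := by
      rcases (Nat.coprime_primes Nat.prime_two hp).2 (Ne.symm h2) with h
      exact h
    rw [hg, one_mul]
    have k1 := key (p * n₁ + 1) (hle 1) (hnd 1 le_rfl (by omega))
    have k2 := key (p * n₁ + 2) (hle 2) (hnd 2 (by omega) (by omega))
    have k3 := dvd_sub k2 k1
    have e3 : (NG k (Multiplicative (ZMod p) ≀ᵣ H) : ℤ) * (((p * n₁ + 2 : ℕ) : ℤ) + S) -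
        (NG k (Multiplicative (ZMod p) ≀ᵣ H) : ℤ) * (((p * n₁ + 1 : ℕ) : ℤ) + S) =
        ((NG k (Multiplicative (ZMod p) ≀ᵣ H) : ℕ) : ℤ) := by
      push_cast
      ring
    rw [e3] at k3
    exact_mod_cast k3

end Pool.CND
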